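import Pool.Agent.helper62.DP8.Spec

/-!
# Project sq8: (MP_e3efbc_co): the table of the known edges
-/

set_option autoImplicit false

namespace Pool.Agent.helper62.DP8

/-- `TRR_stmt`. -/
theorem TRR (hTAB : TAB_stmt) (hWTB : WTB_stmt) : TRR_stmt := by
  intro V G g s v hr
  have hR : (tbl g s).R = rows s.A := (hWTB.2.1 g s).1
  have h1 : ∀ x y, tb (ent (tbl g s).R x) y = true ↔ eL s.A x y := by
    intro x y
    rw [hR]
    refine hTAB.2.2.2 s.A ?_ x y
    intro e he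
    have h2 := hr.wfA e he
    have h3 := hr.n32
    exact ⟨lt_of_lt_of_le h2.1 h3, lt_of_lt_of_le h2.2.1 h3⟩
  refine ⟨h1, ?_⟩
  intro x y hxy
  have h4 : tb (ent (tbl g s).R y) x = true := by
    rw [h1]
    exact ((h1 x y).1 hxy).symm
  rcases (h1 x y).1 hxy with h5 | h5
  · have h6 := hr.wfA _ h5
    exact ⟨h6.1, h6.2.1, fun h => h6.2.2.ne (congrArg v h), h6.2.2, h4⟩
  · have h6 := hr.wfA _ h5
    exact ⟨h6.2.1, h6.1, fun h => h6.2.2.ne (congrArg v h.symm), h6.2.2.symm, h4⟩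

end Pool.Agent.helper62.DP8
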